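import Pool.Agent.Lib.MP_524519_ag.DU5.TE.Iface

/-! # DU5, chapter TE, module ISO: the coordinates `x_0, x_1, W = x_2 - lam x_1` -/

set_option autoImplicit false

namespace Pool.Agent.DU5.TE

open MvPowerSeries

namespace ISO

variable {F : Type} [Field F]

theorem hss {m n : ℕ} (a : Fin m → MvPowerSeries (Fin n) F)
    (h : ∀ i, MvPowerSeries.constantCoeff (a i) = 0) : HasSubst a :=
  hasSubst_of_constantCoeff_zero h

/-- The shear `x_2 ↦ x_2 + c x_1`. -/
noncomputable def sh (c : F) : Fin 3 → O F 3 := ![X 0, X 1, X 2 + MvPowerSeries.C c * X 1]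

theorem sh0 (c : F) : HasSubst (sh c) := by
  refine hss _ fun i => ?_
  fin_cases i <;> simp [sh]

theorem sh_comp (c d : F) (h : c + d = 0) (p : O F 3) : subst (sh d) (subst (sh c) p) = p := by
  rw [subst_comp_subst_apply (sh0 c) (sh0 d)]
  have : (fun s => subst (sh d) (sh c s)) = (X : Fin 3 → O F 3) := by
    funext i
    fin_cases i
    · show subst (sh d) (X 0) = X 0
      rw [subst_X (sh0 d)]; rfl
    · show subst (sh d) (X 1) = X 1
      rw [subst_X (sh0 d)]; rfl
    · show subst (sh d) (X 2 + MvPowerSeries.C c * X 1) = X 2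
      rw [subst_add (sh0 d), subst_mul (sh0 d), subst_X (sh0 d), subst_X (sh0 d), subst_C]
      show X 2 + MvPowerSeries.C d * X 1 + MvPowerSeries.C c * X 1 = X 2
      rw [add_assoc, ← add_mul, ← map_add, add_comm d c, h, map_zero, zero_mul, add_zero]
  rw [this, subst_self]; rfl

/-- The shear as an automorphism. -/
noncomputable def al (c : F) : O F 3 ≃ₐ[F] O F 3 :=
  AlgEquiv.ofAlgHom (substAlgHom (sh0 c)) (substAlgHom (sh0 (-c)))
    (by
      apply AlgHom.ext; intro p
      simp only [AlgHom.comp_apply, AlgHom.id_apply, coe_substAlgHom]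
      exact sh_comp (-c) c (by ring) p)
    (by
      apply AlgHom.ext; intro p
      simp only [AlgHom.comp_apply, AlgHom.id_apply, coe_substAlgHom]
      exact sh_comp c (-c) (by ring) p)

theorem al_apply (c : F) (p : O F 3) : al c p = subst (sh c) p := by
  show substAlgHom (sh0 c) p = _
  rw [coe_substAlgHom]

/-- The exchange of `0` and `2`. -/
def sw : Fin 3 ≃ Fin 3 := Equiv.swap 0 2

theorem mono2 (d : Fin 3 →₀ ℕ) : (d.prod fun s e => ((![0, (X 0 : PC.R2 F), X 1] : Fin 3 → PC.R2 F) s) ^ e) =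
    if d 0 = 0 then monomial (Finsupp.tail d) (1 : F) else 0 := by
  rw [Finsupp.prod_fintype _ _ (by intro i; simp), Fin.prod_univ_three]
  show (0 : PC.R2 F) ^ d 0 * (X 0 : PC.R2 F) ^ d 1 * (X 1 : PC.R2 F) ^ d 2 = _
  split_ifs with h0
  · rw [h0, pow_zero, one_mul, X_pow_eq, X_pow_eq, monomial_mul_monomial, one_mul]
    have : (Finsupp.single 0 (d 1) + Finsupp.single 1 (d 2) : Fin 2 →₀ ℕ) = Finsupp.tail d := by
      ext i
      fin_cases i <;> simp [Finsupp.tail, Fin.tail]
    rw [this]
  · rw [zero_pow h0, zero_mul, zero_mul]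

theorem cc_fse (q : O F 3) :
    PowerSeries.constantCoeff (finSuccEquiv F 2 q) = subst ![0, (X 0 : PC.R2 F), X 1] q := by
  have hb : HasSubst ![0, (X 0 : PC.R2 F), X 1] := by
    refine hss _ fun i => ?_
    fin_cases i <;> simp
  ext x
  rw [← PowerSeries.coeff_zero_eq_constantCoeff_apply, coeff_coeff_finSuccEquiv, coeff_subst hb]
  rw [finsum_eq_single _ (Finsupp.cons 0 x)]
  · rw [mono2, if_pos (Finsupp.cons_zero _ _), Finsupp.tail_cons, coeff_monomial_same, smul_eq_mul,
      mul_one]
  · intro d hd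
    rw [mono2]
    split_ifs with h0
    · rw [coeff_monomial, if_neg, smul_zero]
      intro hx
      apply hd
      rw [hx, ← h0, Finsupp.cons_tail]
    · simp

end ISO

open ISO in
theorem iso : IsoStatement := by
  intro F _ lam
  have hb : HasSubst (![0, (X 0 : PC.R2 F), X 1]) := by
    refine hss _ fun i => ?_
    fin_cases i <;> simp
  have hb' : HasSubst ![(X 1 : PC.R2 F), X 0, 0] := by
    refine hss _ fun i => ?_
    fin_cases i <;> simp
  refine ⟨(((al lam).trans (renameEquiv F sw)).trans (finSuccEquiv F 2)).toRingEquiv, ?_, ?_, ?_⟩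
  · intro c
    show finSuccEquiv F 2 (rename sw (al lam (MvPowerSeries.C c))) = _
    rw [al_apply, subst_C, rename_C, finSuccEquiv_C]
  · show finSuccEquiv F 2 (rename sw (al lam (X 2 - MvPowerSeries.C lam * X 1))) = _
    have h1 : al lam (X 2 - MvPowerSeries.C lam * X 1) = X 2 := by
      rw [al_apply, subst_sub (sh0 lam), subst_mul (sh0 lam), subst_X (sh0 lam), subst_X (sh0 lam),
        subst_C]
      show X 2 + MvPowerSeries.C lam * X 1 - MvPowerSeries.C lam * X 1 = X 2
      rw [add_sub_cancel_right]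
    rw [h1, rename_X]
    show finSuccEquiv F 2 (X 0) = _
    rw [finSuccEquiv_X_zero]
  · intro h
    show PowerSeries.constantCoeff (finSuccEquiv F 2 (rename sw (al lam h))) = _
    rw [cc_fse, rename_eq_subst, subst_comp_subst_apply (HasSubst.X_comp (f := sw)) hb, al_apply]
    have h2 : (fun s => subst (![0, (X 0 : PC.R2 F), X 1]) ((X ∘ sw : Fin 3 → O F 3) s)) =
        ![(X 1 : PC.R2 F), X 0, 0] := by
      funext i
      rw [Function.comp_apply, subst_X hb]
      fin_cases i
      · rfl
      · rfl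
      · rfl
    rw [h2, subst_comp_subst_apply (sh0 lam) hb']
    unfold rs
    congr 1
    funext i
    fin_cases i
    · show subst ![(X 1 : PC.R2 F), X 0, 0] (X 0 : O F 3) = X 1
      rw [subst_X hb']; rfl
    · show subst ![(X 1 : PC.R2 F), X 0, 0] (X 1 : O F 3) = X 0
      rw [subst_X hb']; rfl
    · show subst ![(X 1 : PC.R2 F), X 0, 0] (X 2 + MvPowerSeries.C lam * X 1 : O F 3) =
        MvPowerSeries.C lam * X 0
      rw [subst_add hb', subst_mul hb', subst_X hb', subst_X hb', subst_C]
      show 0 + MvPowerSeries.C lam * X 0 = MvPowerSeries.C lam * (X 0 : PC.R2 F)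
      rw [zero_add]

end Pool.Agent.DU5.TE
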